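import Pool.Agent.Lib.MP_524519_ag.DU5.Defs

/-! # The chain rule for substitutions between rings of power series -/

set_option autoImplicit false

namespace Pool.Agent.DU5.SM

open MvPowerSeries

variable {n m : ℕ} {k A : Type} [Field k] [CommRing A] [Algebra k A]

/-- The order of a substituted series. -/
theorem coeff_subst_zero (x : Fin n → MvPowerSeries (Fin m) A)
    (hx : ∀ i, constantCoeff (x i) = 0) (r : O k n) (N : ℕ)
    (hr : ∀ u : Fin n →₀ ℕ, u.degree < N → coeff u r = 0) (v : Fin m →₀ ℕ) (hv : v.degree < N) :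
    coeff v (MvPowerSeries.subst x r) = 0 := by
  have hs : HasSubst x := hasSubst_of_constantCoeff_zero hx
  have h1 : (N : ℕ∞) ≤ r.order := MvPowerSeries.nat_le_order hr
  have h2 := MvPowerSeries.le_order_subst hs r
  have h3 : (1 : ℕ∞) ≤ ⨅ i, MvPowerSeries.order (x i) := by
    refine le_iInf fun i => ?_
    rw [MvPowerSeries.one_le_order_iff_constCoeff_eq_zero]
    exact hx i
  have h4 : (N : ℕ∞) ≤ MvPowerSeries.order (MvPowerSeries.subst x r) := by
    calc (N : ℕ∞) ≤ r.order := h1
      _ = 1 * r.order := by rw [one_mul]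
      _ ≤ (⨅ i, MvPowerSeries.order (x i)) * r.order := mul_le_mul_left h3 _
      _ ≤ _ := h2
  exact MvPowerSeries.coeff_of_lt_order (lt_of_lt_of_le (by exact_mod_cast hv) h4)

/-- The chain rule for polynomials. -/
theorem chain_poly_mv (x : Fin n → MvPowerSeries (Fin m) A) (l : Fin m)
    (p : MvPolynomial (Fin n) k) :
    pderiv A l (MvPolynomial.aeval x p) =
      ∑ i, MvPolynomial.aeval x (MvPolynomial.pderiv i p) * pderiv A l (x i) := by
  induction p using MvPolynomial.induction_on with
  | C a =>
    have h1 : (MvPolynomial.aeval x (MvPolynomial.C a : MvPolynomial (Fin n) k)) =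
        algebraMap A (MvPowerSeries (Fin m) A) (algebraMap k A a) := by
      rw [MvPolynomial.aeval_C, IsScalarTower.algebraMap_apply k A (MvPowerSeries (Fin m) A)]
    rw [h1, Derivation.map_algebraMap]
    simp
  | add p q hp hq =>
    simp only [map_add, hp, hq, add_mul, Finset.sum_add_distrib]
  | mul_X p j hp =>
    rw [map_mul, MvPolynomial.aeval_X, Derivation.leibniz, hp]
    simp only [Derivation.leibniz, smul_eq_mul, map_add, map_mul, MvPolynomial.aeval_X,
      MvPolynomial.pderiv_X, add_mul, Finset.sum_add_distrib, Finset.mul_sum]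
    congr 1
    · rw [Finset.sum_eq_single j]
      · simp
      · intro i _ hij
        simp [hij.symm]
      · simp
    · refine Finset.sum_congr rfl fun i _ => ?_
      ring

/-- **The chain rule.** -/
theorem chain_mv (x : Fin n → MvPowerSeries (Fin m) A) (hx : ∀ i, constantCoeff (x i) = 0)
    (f : O k n) (l : Fin m) :
    pderiv A l (MvPowerSeries.subst x f) =
      ∑ i, MvPowerSeries.subst x (pderiv k i f) * pderiv A l (x i) := by
  have hs : HasSubst x := hasSubst_of_constantCoeff_zero hx
  have hadd : ∀ a b : O k n, MvPowerSeries.subst x (a + b) =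
      MvPowerSeries.subst x a + MvPowerSeries.subst x b := fun a b => subst_add hs a b
  ext v
  set p : MvPolynomial (Fin n) k := MvPowerSeries.truncTotal (v.degree + 2) f with hp
  set r : O k n := f - (p : O k n) with hr
  have hf : f = (p : O k n) + r := by rw [hr]; ring
  have hrc : ∀ u : Fin n →₀ ℕ, u.degree < v.degree + 2 → coeff u r = 0 := by
    intro u hu
    have h9 : MvPolynomial.coeff u (MvPowerSeries.truncTotal (v.degree + 2) f) = coeff u f :=
      MvPowerSeries.coeff_truncTotal _ hu
    rw [hr, map_sub, MvPolynomial.coeff_coe, hp, h9, sub_self]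
  have hrd : ∀ i, ∀ u : Fin n →₀ ℕ, u.degree < v.degree + 1 → coeff u (pderiv k i r) = 0 := by
    intro i u hu
    rw [MvPowerSeries.coeff_pderiv, hrc, zero_mul]
    rw [map_add]
    simp only [Finsupp.degree_single]
    omega
  have hpoly : pderiv A l (MvPowerSeries.subst x (p : O k n)) =
      ∑ i, MvPowerSeries.subst x (pderiv k i (p : O k n)) * pderiv A l (x i) := by
    rw [MvPowerSeries.subst_coe, chain_poly_mv x l p]
    refine Finset.sum_congr rfl fun i _ => ?_
    rw [MvPowerSeries.pderiv_coe, MvPowerSeries.subst_coe]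
  rw [hf, hadd, map_add, map_add, hpoly]
  have h1 : coeff v (pderiv A l (MvPowerSeries.subst x r)) = 0 := by
    rw [MvPowerSeries.coeff_pderiv, coeff_subst_zero x hx r (v.degree + 2) hrc, zero_mul]
    rw [map_add]
    simp only [Finsupp.degree_single]
    omega
  rw [h1, add_zero, map_sum, map_sum]
  refine Finset.sum_congr rfl fun i _ => ?_
  rw [map_add, hadd, add_mul, map_add]
  have h2 : coeff v (MvPowerSeries.subst x (pderiv k i r) * pderiv A l (x i)) = 0 := by
    classical
    rw [MvPowerSeries.coeff_mul]
    refine Finset.sum_eq_zero fun ab hab => ?_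
    have hab := Finset.HasAntidiagonal.mem_antidiagonal.mp hab
    have hdeg : ab.1.degree ≤ v.degree := by
      rw [← hab, map_add]; omega
    rw [coeff_subst_zero x hx (pderiv k i r) (v.degree + 1) (hrd i) ab.1 (by omega), zero_mul]
  rw [h2, add_zero]

end Pool.Agent.DU5.SM
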