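import Pool.Agent.Lib.MP_524519_ag.DU5.Top
import Pool.Agent.Lib.MP_524519_ag.DU5.SM.Sub
import Pool.Agent.Lib.MP_524519_ag.DU5.AB.Iface

/-! # SHR: the shear -/

set_option autoImplicit false

namespace Pool.Agent.DU5.SM

open MvPowerSeries

section

variable {k : Type} [Field k]

/-- The shear. -/
noncomputable def sh (α β : k) : Fin 3 → O k 3 := ![X 0, X 1 + C α * X 0, X 2 + C β * X 0]

theorem sh_const (α β : k) (i : Fin 3) : constantCoeff (sh α β i) = 0 := by
  fin_cases i <;> simp [sh]

theorem sh_hs (α β : k) : HasSubst (sh α β) := hasSubst_of_constantCoeff_zero (sh_const α β)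

/-- The shear as an automorphism. -/
noncomputable def tau (α β : k) : O k 3 →ₐ[k] O k 3 := substAlgHom (sh_hs α β)

theorem tau_apply (α β : k) (h : O k 3) : tau α β h = subst (sh α β) h :=
  substAlgHom_apply _ _

theorem tau_X (α β : k) (i : Fin 3) : tau α β (X i) = sh α β i := substAlgHom_X _ _

theorem tau_C (α β c : k) : tau α β (C c) = C c := by
  rw [tau_apply, subst_C]

theorem tau_tau (α β : k) (h : O k 3) : tau (-α) (-β) (tau α β h) = h := by
  rw [tau_apply, tau_apply, subst_comp_subst_apply (sh_hs α β) (sh_hs (-α) (-β))]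
  have h1 : (fun s => subst (sh (-α) (-β)) (sh α β s)) = (X : Fin 3 → O k 3) := by
    funext s
    rw [← tau_apply]
    fin_cases s
    · simp only [sh, Fin.zero_eta, Matrix.cons_val_zero]
      rw [tau_X]; simp [sh]
    · simp only [sh, Fin.mk_one, Matrix.cons_val_one, Matrix.cons_val_zero]
      rw [map_add, map_mul, tau_X, tau_X, tau_C]
      simp [sh]
    · simp only [sh, Fin.reduceFinMk, Matrix.cons_val]
      rw [map_add, map_mul, tau_X, tau_X, tau_C]
      simp [sh]
  rw [h1, subst_self]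
  rfl

theorem pd_tau (α β : k) (f : O k 3) :
    pderiv k 0 (tau α β f) = tau α β (pderiv k 0 f) + C α * tau α β (pderiv k 1 f) +
      C β * tau α β (pderiv k 2 f) ∧
    pderiv k 1 (tau α β f) = tau α β (pderiv k 1 f) ∧
    pderiv k 2 (tau α β f) = tau α β (pderiv k 2 f) := by
  have hC : ∀ (c : k) (l : Fin 3), pderiv k l (C c : O k 3) = 0 := fun c l =>
    (pderiv k l).map_algebraMap c
  simp only [tau_apply]
  refine ⟨?_, ?_, ?_⟩ <;>
  · rw [chain_mv (sh α β) (sh_const α β), Fin.sum_univ_three]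
    simp [sh, hC, mul_comm]

theorem tau_surj (α β : k) : Function.Surjective (tau α β) := fun h =>
  ⟨tau (-α) (-β) h, by simpa using tau_tau (-α) (-β) h⟩

theorem len_le_of_surj {R : Type} [CommRing R] [Algebra k R] (T : R →ₐ[k] R)
    (hT : Function.Surjective T) {I J : Ideal R} (h : ∀ a ∈ I, T a ∈ J) : len k J ≤ len k I := by
  unfold len
  refine Module.length_le_of_surjective (Ideal.quotientMapₐ J T (fun a ha => h a ha)).toLinearMap ?_
  intro y
  obtain ⟨y, rfl⟩ := Ideal.Quotient.mk_surjective y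
  obtain ⟨z, rfl⟩ := hT y
  exact ⟨Ideal.Quotient.mk I z, rfl⟩

theorem jac_tau (α β : k) (f : O k 3) : len k (jac (tau α β f)) ≤ len k (jac f) := by
  refine len_le_of_surj (tau α β) (tau_surj α β) fun a ha => ?_
  obtain ⟨h0, h1, h2⟩ := pd_tau α β f
  have hm : ∀ i, pderiv k i (tau α β f) ∈ jac (tau α β f) := fun i =>
    Ideal.subset_span ⟨i, rfl⟩
  have hg : ∀ i, tau α β (pderiv k i f) ∈ jac (tau α β f) := by
    intro i
    fin_cases i
    · have h3 : tau α β (pderiv k 0 f) = pderiv k 0 (tau α β f) -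
          C α * pderiv k 1 (tau α β f) - C β * pderiv k 2 (tau α β f) := by
        rw [h0, h1, h2]; ring
      simp only [Fin.zero_eta]
      rw [h3]
      exact Ideal.sub_mem _ (Ideal.sub_mem _ (hm 0) (Ideal.mul_mem_left _ _ (hm 1)))
        (Ideal.mul_mem_left _ _ (hm 2))
    · simp only [Fin.mk_one]; rw [← h1]; exact hm 1
    · simp only [Fin.reduceFinMk]; rw [← h2]; exact hm 2
  have h4 : jac f ≤ Ideal.comap (tau α β) (jac (tau α β f)) := by
    rw [jac, Ideal.span_le]
    rintro _ ⟨i, rfl⟩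
    exact hg i
  exact h4 ha

section

variable {K : Type} [Field K] [Algebra k K]

/-- The sheared point. -/
noncomputable def shx (α β : k) (x : Fin 3 → PowerSeries K) : Fin 3 → PowerSeries K :=
  ![x 0, x 1 + algebraMap k (PowerSeries K) α * x 0, x 2 + algebraMap k (PowerSeries K) β * x 0]

theorem ev_tau (α β : k) (x : Fin 3 → PowerSeries K)
    (hx : ∀ i, PowerSeries.constantCoeff (x i) = 0) (h : O k 3) :
    ev x (tau α β h) = ev (shx α β x) h := by
  unfold ev
  rw [tau_apply, subst_comp_subst_apply (sh_hs α β) (hs hx)]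
  congr 1
  funext s
  have hX : ∀ i, subst x (X i : O k 3) = x i := fun i => subst_X (hs hx) i
  have hC : ∀ c : k, subst x (C c : O k 3) = algebraMap k (PowerSeries K) c := fun c => by
    rw [← substAlgHom_apply (hs hx)]
    exact (substAlgHom (hs hx)).commutes c
  fin_cases s
  · simp only [sh, shx, Fin.zero_eta, Matrix.cons_val_zero, hX]
  · simp only [sh, shx, Fin.mk_one, Matrix.cons_val_one, Matrix.cons_val_zero]
    rw [subst_add (hs hx), subst_mul (hs hx), hX, hX, hC]
  · simp only [sh, shx, Fin.reduceFinMk, Matrix.cons_val]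
    rw [subst_add (hs hx), subst_mul (hs hx), hX, hX, hC]

theorem jm_shx (α β : k) (D : Derivation k K K) (x : Fin 3 → PowerSeries K) :
    jm D x 0 = jm D (shx α β x) 0 + algebraMap k (PowerSeries K) α * jm D (shx α β x) 1 +
      algebraMap k (PowerSeries K) β * jm D (shx α β x) 2 ∧
    jm D x 1 = jm D (shx α β x) 1 ∧ jm D x 2 = jm D (shx α β x) 2 := by
  have h1 : ∀ (c : k) (z : PowerSeries K), AB.du k (algebraMap k (PowerSeries K) c * z) =
      algebraMap k (PowerSeries K) c * AB.du k z := fun c z => by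
    rw [Derivation.leibniz, Derivation.map_algebraMap, smul_zero, add_zero, smul_eq_mul]
  have h2 : ∀ (c : k) (z : PowerSeries K), AB.dlD D (algebraMap k (PowerSeries K) c * z) =
      algebraMap k (PowerSeries K) c * AB.dlD D z := fun c z => by
    rw [Derivation.leibniz, Derivation.map_algebraMap, smul_zero, add_zero, smul_eq_mul]
  have e1 : (1 : Fin 3) + 1 = 2 := rfl
  have e2 : (1 : Fin 3) + 2 = 0 := rfl
  have e3 : (2 : Fin 3) + 1 = 0 := rfl
  have e4 : (2 : Fin 3) + 2 = 1 := rfl
  simp only [jm, ← AB.du_apply (k := k), ← AB.dlD_apply, zero_add, e1, e2, e3, e4]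
  have s0 : shx α β x 0 = x 0 := rfl
  have s1 : shx α β x 1 = x 1 + algebraMap k (PowerSeries K) α * x 0 := rfl
  have s2 : shx α β x 2 = x 2 + algebraMap k (PowerSeries K) β * x 0 := rfl
  simp only [s0, s1, s2, map_add, h1, h2]
  refine ⟨?_, ?_, ?_⟩ <;> ring

end

theorem IS_tau (p : ℕ) (α β : k) (f h : O k 3) (hh : h ∈ IS p f 0) :
    tau α β h ∈ IS p (tau α β f) 0 := by
  intro K _ _ D x hD hx hx0 hf
  have hc : ∀ c : k, PowerSeries.constantCoeff (algebraMap k (PowerSeries K) c * x 0) = 0 := by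
    intro c; rw [map_mul, hx, mul_zero]
  have hy : ∀ i, PowerSeries.constantCoeff (shx α β x i) = 0 := by
    intro i
    fin_cases i
    · exact hx 0
    · change PowerSeries.constantCoeff (x 1 + _) = 0
      rw [map_add, hc, hx, add_zero]
    · change PowerSeries.constantCoeff (x 2 + _) = 0
      rw [map_add, hc, hx, add_zero]
  have hy0 : shx α β x ≠ 0 := by
    intro h0
    have g0 : x 0 = 0 := congrFun h0 0
    have g1 : x 1 + algebraMap k (PowerSeries K) α * x 0 = 0 := congrFun h0 1
    have g2 : x 2 + algebraMap k (PowerSeries K) β * x 0 = 0 := congrFun h0 2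
    rw [g0, mul_zero, add_zero] at g1 g2
    apply hx0
    funext i
    fin_cases i
    · exact g0
    · exact g1
    · exact g2
  have hfy : ev (shx α β x) f = 0 := by rw [← ev_tau α β x hx]; exact hf
  obtain ⟨g, hg⟩ := hh K D (shx α β x) hD hy hy0 hfy
  simp only [zero_mul, Nat.zero_div, pow_zero, one_mul] at hg
  obtain ⟨h0, h1, h2⟩ := pd_tau α β f
  obtain ⟨j0, j1, j2⟩ := jm_shx α β D x
  refine ⟨g, fun i => ?_⟩
  rw [zero_mul, Nat.zero_div, pow_zero, one_mul, ev_tau α β x hx h]
  have hC : ∀ c : k, ev x (C c : O k 3) = algebraMap k (PowerSeries K) c := fun c => by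
    unfold ev
    rw [← substAlgHom_apply (hs hx)]
    exact (substAlgHom (hs hx)).commutes c
  fin_cases i
  · simp only [Fin.zero_eta]
    rw [h0, ev_add hx, ev_add hx, ev_mul hx, ev_mul hx, hC, hC, ev_tau α β x hx, ev_tau α β x hx,
      ev_tau α β x hx, j0]
    linear_combination hg 0 + algebraMap k (PowerSeries K) α * hg 1 +
      algebraMap k (PowerSeries K) β * hg 2
  · simp only [Fin.mk_one]
    rw [h1, ev_tau α β x hx, j1]
    exact hg 1
  · simp only [Fin.reduceFinMk]
    rw [h2, ev_tau α β x hx, j2]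
    exact hg 2

theorem len_IS_tau (p : ℕ) (α β : k) (f : O k 3) :
    len k (IS p f 0) ≤ len k (IS p (tau α β f) 0) := by
  refine len_le_of_surj (tau (-α) (-β)) (tau_surj _ _) fun a ha => ?_
  have := IS_tau p (-α) (-β) (tau α β f) a ha
  rwa [tau_tau] at this

end

end Pool.Agent.DU5.SM
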