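import Pool.Agent.Lib.MP_524519_ag.DU5.SM.Shr

/-! # SHR: the leading form and the final statement -/

set_option autoImplicit false

namespace Pool.Agent.DU5.SM

open MvPowerSeries

variable {k : Type} [Field k]

theorem degree_three (e : Fin 3 →₀ ℕ) : e.degree = e 0 + e 1 + e 2 := by
  rw [Finsupp.degree_eq_sum, Fin.sum_univ_three]

theorem eval_homogeneous (q : MvPolynomial (Fin 3) k) (d : ℕ) (hq : q.IsHomogeneous d) :
    MvPolynomial.eval ![1, 0, 0] q = q.coeff (Finsupp.single 0 d) := by
  rw [MvPolynomial.eval_eq', Finset.sum_eq_single (Finsupp.single 0 d)]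
  · simp [Fin.prod_univ_three]
  · intro e he hne
    have h1 : e.degree = d := by
      by_contra h
      exact (MvPolynomial.mem_support_iff.1 he) (hq.coeff_eq_zero h)
    rw [degree_three] at h1
    have h2 : e 1 ≠ 0 ∨ e 2 ≠ 0 := by
      by_contra h
      push Not at h
      apply hne
      ext i
      fin_cases i
      · simp only [Fin.zero_eta, Finsupp.single_eq_same]; omega
      · simp [h.1]
      · simp [h.2]
    rw [Fin.prod_univ_three]
    rcases h2 with h2 | h2
    · simp [h2]
    · simp [h2]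
  · intro h
    rw [MvPolynomial.notMem_support_iff.1 h, zero_mul]

theorem eval_smul_homogeneous (q : MvPolynomial (Fin 3) k) (d : ℕ) (hq : q.IsHomogeneous d)
    (c : k) (w : Fin 3 → k) :
    MvPolynomial.eval (fun i => c * w i) q = c ^ d * MvPolynomial.eval w q := by
  rw [MvPolynomial.eval_eq', MvPolynomial.eval_eq', Finset.mul_sum]
  refine Finset.sum_congr rfl fun e he => ?_
  have h1 : e.degree = d := by
    by_contra h
    exact (MvPolynomial.mem_support_iff.1 he) (hq.coeff_eq_zero h)
  rw [degree_three] at h1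
  simp only [Fin.prod_univ_three, mul_pow]
  rw [← h1, pow_add, pow_add]
  ring

theorem exists_point [Infinite k] (q : MvPolynomial (Fin 3) k) (d : ℕ) (hq : q.IsHomogeneous d)
    (h0 : q ≠ 0) : ∃ α β : k, MvPolynomial.eval ![1, α, β] q ≠ 0 := by
  by_contra hcon
  push Not at hcon
  have h1 : MvPolynomial.X 0 * q = 0 := by
    refine MvPolynomial.funext fun v => ?_
    rw [map_mul, MvPolynomial.eval_X, map_zero]
    by_cases hv : v 0 = 0
    · rw [hv, zero_mul]
    · have h2 : v = fun i => v 0 * (![1, v 1 / v 0, v 2 / v 0] : Fin 3 → k) i := by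
        funext i
        fin_cases i
        · simp
        · simp; field_simp
        · simp; field_simp
      rw [h2, eval_smul_homogeneous q d hq, hcon]
      ring
  rcases mul_eq_zero.1 h1 with h2 | h2
  · exact MvPolynomial.X_ne_zero 0 h2
  · exact h0 h2

/-- The coefficient of `x_0 ^ d` after the shear. -/
theorem coeff_tau (α β : k) (f : O k 3) (d : ℕ)
    (hf : ∀ e : Fin 3 →₀ ℕ, e.degree < d → coeff e f = 0) :
    (truncTotal (d + 1) f).IsHomogeneous d ∧
    coeff (Finsupp.single 0 d) (tau α β f) =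
      MvPolynomial.eval ![1, α, β] (truncTotal (d + 1) f) := by
  set H : MvPolynomial (Fin 3) k := truncTotal (d + 1) f with hH
  have hHc : ∀ e : Fin 3 →₀ ℕ, e.degree < d + 1 → H.coeff e = coeff e f := fun e he =>
    MvPowerSeries.coeff_truncTotal _ he
  have hhom : H.IsHomogeneous d := by
    intro e he
    have h1 : e.degree < d + 1 := by
      by_contra h
      exact he (MvPowerSeries.coeff_truncTotal_eq_zero _ (not_lt.1 h))
    have h2 : ¬ e.degree < d := fun h => he (by rw [hHc e h1, hf e h])
    have h3 : e.degree = d := by omega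
    rw [← h3, Finsupp.degree_eq_weight_one]
    rfl
  refine ⟨hhom, ?_⟩
  set r : O k 3 := f - (H : O k 3) with hr
  have hfr : f = (H : O k 3) + r := by rw [hr]; ring
  have hrc : ∀ u : Fin 3 →₀ ℕ, u.degree < d + 1 → coeff u r = 0 := by
    intro u hu
    rw [hr, map_sub, MvPolynomial.coeff_coe, hHc u hu, sub_self]
  have h1 : coeff (Finsupp.single 0 d) (tau α β r) = 0 := by
    rw [tau_apply]
    exact coeff_subst_zero (sh α β) (sh_const α β) r (d + 1) hrc _ (by simp)
  let sh' : Fin 3 → MvPolynomial (Fin 3) k :=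
    ![MvPolynomial.X 0, MvPolynomial.X 1 + MvPolynomial.C α * MvPolynomial.X 0,
      MvPolynomial.X 2 + MvPolynomial.C β * MvPolynomial.X 0]
  have h2 : tau α β (H : O k 3) = ((MvPolynomial.aeval sh' H : MvPolynomial (Fin 3) k) : O k 3) := by
    rw [tau_apply, subst_coe]
    have h3 := MvPolynomial.comp_aeval_apply (R := k) (f := sh')
      (MvPolynomial.coeToMvPowerSeries.algHom (R := k) (σ := Fin 3) k) H
    simp only [MvPolynomial.coeToMvPowerSeries.algHom_apply, Algebra.algebraMap_self,
      MvPowerSeries.map_id, RingHom.id_apply] at h3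
    rw [h3]
    congr 2
    funext i
    fin_cases i <;> simp [sh, sh']
  have h4 : (MvPolynomial.aeval sh' H : MvPolynomial (Fin 3) k).IsHomogeneous d := by
    have h5 := hhom.aeval sh' (n := 1) (by
      intro i
      fin_cases i
      · exact MvPolynomial.isHomogeneous_X _ _
      · exact (MvPolynomial.isHomogeneous_X _ _).add (MvPolynomial.isHomogeneous_C_mul_X _ _)
      · exact (MvPolynomial.isHomogeneous_X _ _).add (MvPolynomial.isHomogeneous_C_mul_X _ _))
    rwa [one_mul] at h5
  rw [hfr, map_add, map_add, h1, add_zero, h2, MvPolynomial.coeff_coe,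
    ← eval_homogeneous _ d h4]
  have h6 := MvPolynomial.comp_aeval_apply (R := k) (f := sh')
    (MvPolynomial.aeval (R := k) (![1, 0, 0] : Fin 3 → k)) H
  have h8 : ∀ (v : Fin 3 → k) (q : MvPolynomial (Fin 3) k),
      MvPolynomial.aeval v q = MvPolynomial.eval v q := fun v q => by
    rw [← MvPolynomial.coe_aeval_eq_eval]; rfl
  simp only [h8] at h6
  rw [h6]
  have h7 : (truncTotal (d + 1) ((H : O k 3) + r)) = H := by rw [← hfr]
  congr 2
  funext i
  fin_cases i <;> simp [sh']

theorem jac_coeff (f h : O k 3) (d : ℕ) (hf : ∀ e : Fin 3 →₀ ℕ, e.degree < d + 1 → coeff e f = 0)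
    (hh : h ∈ jac f) : ∀ e : Fin 3 →₀ ℕ, e.degree < d → coeff e h = 0 := by
  classical
  refine Submodule.span_induction ?_ ?_ ?_ ?_ hh
  · rintro _ ⟨i, rfl⟩ e he
    rw [coeff_pderiv, hf, zero_mul]
    rw [map_add]
    simp only [Finsupp.degree_single]
    omega
  · intro e _; simp
  · intro a b _ _ ha hb e he
    rw [map_add, ha e he, hb e he, add_zero]
  · intro a b _ hb e he
    rw [smul_eq_mul, coeff_mul]
    refine Finset.sum_eq_zero fun uv huv => ?_
    have huv := Finset.HasAntidiagonal.mem_antidiagonal.mp huv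
    rw [hb uv.2, mul_zero]
    have : uv.2.degree ≤ e.degree := by rw [← huv, map_add]; omega
    omega

theorem len_ge (f : O k 3) (d : ℕ) (hf : ∀ e : Fin 3 →₀ ℕ, e.degree < d + 1 → coeff e f = 0) :
    (d : ℕ∞) ≤ len k (jac f) := by
  let φ : O k 3 →ₗ[k] (Fin d → k) :=
    LinearMap.pi fun i => MvPowerSeries.coeff (R := k) (Finsupp.single 0 (i : ℕ))
  have hφ : (jac f).restrictScalars k ≤ LinearMap.ker φ := by
    intro h hh
    rw [LinearMap.mem_ker]
    ext i
    exact jac_coeff f h d hf hh _ (by simp)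
  let ψ : (O k 3 ⧸ jac f) →ₗ[k] (Fin d → k) :=
    (((jac f).restrictScalars k).liftQ φ hφ).comp
      (Submodule.Quotient.restrictScalarsEquiv k (jac f)).symm.toLinearMap
  have hψ : Function.Surjective ψ := by
    intro v
    have hψa : ∀ (h : O k 3) (j : Fin d), ψ (Ideal.Quotient.mk _ h) j =
        MvPowerSeries.coeff (Finsupp.single 0 (j : ℕ)) h := fun h j => rfl
    refine ⟨Ideal.Quotient.mk _ (∑ i : Fin d, v i • (X 0 : O k 3) ^ (i : ℕ)), ?_⟩
    funext j
    rw [hψa, map_sum, Finset.sum_eq_single j]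
    · rw [map_smul, coeff_X_pow, if_pos rfl, smul_eq_mul, mul_one]
    · intro i _ hij
      rw [map_smul, coeff_X_pow, if_neg, smul_zero]
      intro h
      apply hij
      have := congrArg (fun (u : Fin 3 →₀ ℕ) => u 0) h
      simp only [Finsupp.single_eq_same] at this
      exact (Fin.ext this).symm
    · intro h; exact absurd (Finset.mem_univ _) h
  have h1 := Module.length_le_of_surjective ψ hψ
  unfold len
  refine le_trans ?_ h1
  rw [Module.length_eq_finrank, Module.finrank_fin_fun]

end Pool.Agent.DU5.SM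

namespace Pool.Agent.DU5

open MvPowerSeries SM

theorem shr : SHRStatement := by
  intro p _ k _ _ _ f m hf hm h0
  have hfne : ∃ n : ℕ, ∃ e : Fin 3 →₀ ℕ, e.degree = n ∧ coeff e f ≠ 0 := by
    by_contra hcon
    push Not at hcon
    have h1 := len_ge f (m + 1) (fun e _ => hcon _ e rfl)
    have h2 : ((m + 1 : ℕ) : ℕ∞) ≤ m := h1.trans hm
    have h3 : m + 1 ≤ m := by exact_mod_cast h2
    omega
  classical
  set d := Nat.find hfne with hd
  obtain ⟨e, hed, hec⟩ := Nat.find_spec hfne
  rw [← hd] at hed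
  have hlow : ∀ e : Fin 3 →₀ ℕ, e.degree < d → coeff e f = 0 := by
    intro u hu
    by_contra hne
    exact Nat.find_min hfne hu ⟨u, rfl, hne⟩
  have hd1 : 1 < d := by
    by_contra hlt
    have hdd : d = 0 ∨ d = 1 := by omega
    rcases hdd with h | h
    · rw [h, Finsupp.degree_eq_zero_iff] at hed
      rw [hed] at hec
      exact hec (by simpa using hf)
    · rw [h] at hed
      have h1 : ∃ i : Fin 3, e = Finsupp.single i 1 := by
        rw [degree_three] at hed
        have : (e 0 = 1 ∧ e 1 = 0 ∧ e 2 = 0) ∨ (e 0 = 0 ∧ e 1 = 1 ∧ e 2 = 0) ∨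
            (e 0 = 0 ∧ e 1 = 0 ∧ e 2 = 1) := by omega
        rcases this with h | h | h
        · exact ⟨0, by ext i; fin_cases i <;> simp [h]⟩
        · exact ⟨1, by ext i; fin_cases i <;> simp [h]⟩
        · exact ⟨2, by ext i; fin_cases i <;> simp [h]⟩
      obtain ⟨i, rfl⟩ := h1
      have h2 : IsUnit (pderiv k i f) := by
        rw [MvPowerSeries.isUnit_iff_constantCoeff, isUnit_iff_ne_zero,
          ← coeff_zero_eq_constantCoeff_apply, coeff_pderiv, zero_add]
        simpa using hec
      have h3 : jac f = ⊤ := Ideal.eq_top_of_isUnit_mem _ (Ideal.subset_span ⟨i, rfl⟩) h2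
      apply h0
      have : Subsingleton (O k 3 ⧸ jac f) := Ideal.Quotient.subsingleton_iff.2 h3
      unfold len
      exact Module.length_eq_zero
  have hinf : Infinite k := IsAlgClosed.instInfinite
  obtain ⟨hhom, -⟩ := coeff_tau 0 0 f d hlow
  have hne : truncTotal (d + 1) f ≠ 0 := by
    intro h
    apply hec
    rw [← MvPowerSeries.coeff_truncTotal (p := f) (n := d + 1) (x := e) (by omega), h]
    simp
  obtain ⟨α, β, hαβ⟩ := exists_point _ d hhom hne
  refine ⟨d, tau α β f, hd1, ?_, ⟨?_, ?_⟩, (jac_tau α β f).trans hm, len_IS_tau p α β f⟩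
  · have h1 := len_ge f (d - 1) (fun e he => hlow e (by omega))
    have h2 : ((d - 1 : ℕ) : ℕ∞) ≤ m := h1.trans hm
    have h3 : d - 1 ≤ m := by exact_mod_cast h2
    omega
  · intro e he
    rw [tau_apply]
    exact coeff_subst_zero (sh α β) (sh_const α β) f d hlow e (by rw [degree_three]; exact he)
  · rw [(coeff_tau α β f d hlow).2]
    exact hαβ

end Pool.Agent.DU5
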