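import Pool.Agent.Lib.MP_524519_ag.DU5.Top
import Pool.Agent.Lib.MP_524519_ag.DU5.AB.Iface
import Pool.Agent.Lib.MP_524519_ag.DU5.TR.H57.Chn

/-! # The statements JIS and FNI -/

set_option autoImplicit false

namespace Pool.Agent.DU5.SM

open MvPowerSeries

/-- The gradient is proportional to the minors. -/
theorem cross {k A : Type} [Field k] [CommRing A] [Algebra k A] (D : Derivation k A A)
    (x : Fin 3 → PowerSeries A) (f : O k 3) (hx : ∀ i, PowerSeries.constantCoeff (x i) = 0)
    (hf : ev x f = 0) (l i : Fin 3) :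
    jm D x l * ev x (pderiv k i f) = ev x (pderiv k l f) * jm D x i := by
  obtain ⟨h1, h2⟩ := TR.H57.chn 3 k A D x f hx
  have hz : dl D (0 : PowerSeries A) = 0 := by
    ext m; simp [dl]
  rw [hf, map_zero, Fin.sum_univ_three] at h1
  rw [hf, hz, Fin.sum_univ_three] at h2
  unfold jm
  have e1 : (1 : Fin 3) + 1 = 2 := rfl
  have e2 : (1 : Fin 3) + 2 = 0 := rfl
  have e3 : (2 : Fin 3) + 1 = 0 := rfl
  have e4 : (2 : Fin 3) + 2 = 1 := rfl
  fin_cases l <;> fin_cases i <;>
    simp only [Fin.zero_eta, Fin.mk_one, Fin.reduceFinMk, zero_add, e1, e2, e3, e4]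
  · ring
  · linear_combination (-dl D (x 2)) * h1 + PowerSeries.derivative A (x 2) * h2
  · linear_combination (dl D (x 1)) * h1 - PowerSeries.derivative A (x 1) * h2
  · linear_combination (dl D (x 2)) * h1 - PowerSeries.derivative A (x 2) * h2
  · ring
  · linear_combination (-dl D (x 0)) * h1 + PowerSeries.derivative A (x 0) * h2
  · linear_combination (-dl D (x 1)) * h1 + PowerSeries.derivative A (x 1) * h2
  · linear_combination (dl D (x 0)) * h1 - PowerSeries.derivative A (x 0) * h2
  · ring

theorem jis : JISStatement := by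
  intro p k _ f
  rw [jac, Ideal.span_le]
  rintro _ ⟨l, rfl⟩ K _ _ D x _ hx _ hf
  refine ⟨jm D x l, fun i => ?_⟩
  rw [zero_mul, Nat.zero_div, pow_zero, one_mul]
  exact cross D x f hx hf l i

/-- The powers of the maximal ideal have finite colength. -/
theorem finite_pow (mx : AB.MXStatement) (k : Type) [Field k] (n N : ℕ) :
    len k (Ideal.span (Set.range (X : Fin n → O k n)) ^ N) ≠ ⊤ := by
  classical
  set m : Ideal (O k n) := Ideal.span (Set.range (X : Fin n → O k n)) with hm
  have hfs : {α : Fin n →₀ ℕ | α.degree < N}.Finite := by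
    refine (Set.finite_Iic (Finsupp.equivFunOnFinite.symm fun _ : Fin n => N)).subset ?_
    intro α hα
    rw [Set.mem_Iic, Finsupp.le_def]
    intro i
    have h1 : α i ≤ α.degree := Finsupp.le_degree i α
    have h2 : α.degree < N := hα
    simp only [Finsupp.equivFunOnFinite_symm_apply_apply]
    omega
  have : Finite {α : Fin n →₀ ℕ | α.degree < N} := hfs
  let φ : O k n →ₗ[k] ({α : Fin n →₀ ℕ | α.degree < N} → k) :=
    LinearMap.pi fun α => MvPowerSeries.coeff (R := k) α.1
  have hker : LinearMap.ker φ = (m ^ N).restrictScalars k := by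
    ext h
    rw [LinearMap.mem_ker, Submodule.restrictScalars_mem, hm, mx k n N h]
    constructor
    · intro h1 α hα
      exact congrFun h1 ⟨α, hα⟩
    · intro h1
      ext α
      exact h1 α.1 α.2
  have h1 : Module.Finite k (O k n ⧸ LinearMap.ker φ) :=
    Module.Finite.of_injective _ (LinearMap.ker_eq_bot.1 (Submodule.ker_liftQ_eq_bot' _ φ rfl))
  rw [hker] at h1
  have h2 : Module.Finite k (O k n ⧸ m ^ N) :=
    Module.Finite.equiv (Submodule.Quotient.restrictScalarsEquiv k (m ^ N))
  unfold len
  rw [Module.length_eq_finrank]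
  exact ENat.natCast_ne_top _

theorem fni (mx : AB.MXStatement) (mpow : AB.MPOWStatement) (isp : AB.ISPStatement) :
    FNIStatement := by
  intro p hp k _ _ _ f hf j
  obtain ⟨N, hN⟩ := mpow k 3 (jac f) hf
  obtain ⟨hmono, hX, -⟩ := isp p k f
  have h1 : ∀ t : ℕ, Ideal.span (Set.range (X : Fin 3 → O k 3)) ^ t * IS p f 0 ≤
      IS p f (t * p) := by
    intro t
    induction t with
    | zero => simp
    | succ t ih =>
      rw [pow_succ', mul_assoc, Ideal.mul_le]
      intro r hr s hs
      have hs' := ih hs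
      refine Submodule.span_induction ?_ ?_ ?_ ?_ hr
      · rintro _ ⟨i, rfl⟩
        have := hX (t * p) i s hs'
        rwa [show (t + 1) * p = t * p + p by ring]
      · rw [zero_mul]; exact Ideal.zero_mem _
      · intro a b _ _ ha hb
        rw [add_mul a b s]; exact Ideal.add_mem _ ha hb
      · intro a b _ hb
        rw [smul_eq_mul, mul_assoc]; exact Ideal.mul_mem_left _ _ hb
  have h2 : Ideal.span (Set.range (X : Fin 3 → O k 3)) ^ (j + N) ≤ IS p f j := by
    rw [pow_add]
    refine (Ideal.mul_mono_right (hN.trans (jis p k f))).trans ((h1 j).trans (hmono j (j * p) ?_))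
    exact Nat.le_mul_of_pos_right _ hp.out.pos
  have h3 := finite_pow mx k 3 (j + N)
  refine ne_top_of_le_ne_top h3 ?_
  exact AB.len_mono h2

end Pool.Agent.DU5.SM
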